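import Pool.Agent.W5h73.VM.Main

/-!
Classical links bounding virtual surfaces (surfaces in thickened 3-manifolds) whose double curves
ending on the link cross one another evenly. In the projection of a surface, the triple points are the
Reidemeister moves of type III in its movie. The movies here go from the link into the surface, so
that births of components are the local maxima of the distance function, and ribbon discs are
the discs given by movies without births. A movie of virtual links is a movie of arbitrary signed
Gauss codes. Every crossing belongs to a double curve of the projection, named by its colour;
`curve k true` and `curve k false` are the names of the two curves in the surface lying over the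
double curve with colour `k` (which are one curve, if the double curve has branch points, that is, if
the colour is even).
-/

namespace Pool.Agent.Results.MP_752436_gt.VirtualEvenCrossings

open Pool.Agent.Y468.SR Pool.Agent.Y874.TP Pool.Agent.R800.TP Pool.Agent.W5h73.VM

/-- Let `L` be a classical link. Let a movie of classical links without births lead from `L` to the
link `D` (for instance, `D = L`), and let `D` bound virtual surfaces: a movie of *virtual* links leads
from `D` to the empty link, births being allowed. Let `Z` be a set of double curves of these surfaces
which do not meet `D`, such that through each triple point there pass at least two or none of them,
and let `T` be the list of the triple points of the second kind. Let the double curves be named so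
that every curve of the preimage has at most two ends on `D`, and suppose that any two different
curves of the preimage having ends on `D` cross each other an even number of times (at the triple
points in `T`). Then the components of `L` bound disjoint ribbon discs in the 4-ball, that is, discs
given by a movie of classical links without births. The virtual surfaces may have handles which can
be cut along curves meeting only the double curves in `Z`. -/
theorem result (L : List (List Pass)) (hL : Classical L.zipIdx) (D : Code) (Z : ℕ → Prop)
    (T : List (ℕ × ℕ × ℕ)) (h₁ : Movie true false L.zipIdx D) (h₂ : VMovie Z D T)
    (hZ : ∀ p ∈ passes D, ¬Z (colour p.crossing))
    (h₃ : ∀ κ : ℕ × Bool, ((passes D).map ends).count κ ≤ 2)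
    (h₄ : ∀ p ∈ passes D, ∀ q ∈ passes D, ends p ≠ ends q →
      Even ((T.flatMap crs).count s(ends p, ends q))) :
    Movie true false L.zipIdx [] := by
  have hn : (L.zipIdx.map Prod.snd).Nodup := by
    rw [List.zipIdx_map_snd]
    exact List.nodup_range'
  exact h₁.trans (even_ribbon_virtual (classical_of_movie h₁ hL) h₂ hZ (nodup_movie h₁ hn) h₃ h₄)

end Pool.Agent.Results.MP_752436_gt.VirtualEvenCrossings
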