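import Pool.Agent.W5h73.VM.Main

/-!
Classical links bounding virtual surfaces (surfaces in thickened 3-manifolds) without monogons and
bigons of double curves near the boundary. In the projection of a surface, the triple points are the
Reidemeister moves of type III in its movie. The movies here go from the link into the surface, so
that births of components are the local maxima of the distance function, and ribbon discs are
the discs given by movies without births. A movie of virtual links is a movie of arbitrary signed
Gauss codes. Every crossing belongs to a double curve of the projection, named by its colour; the
preimage of the double curve with colour `k` in the surface consists of two curves (of one curve, if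
the double curve has branch points, that is, if the colour is even), and `crs t` is the list of the
three pairs of these curves crossing at the triple point `t`, in its top, middle and bottom sheet.
-/

namespace Pool.Agent.Results.MP_752436_gt.VirtualNoBigons

open Pool.Agent.Y468.SR Pool.Agent.Y874.TP Pool.Agent.R800.TP Pool.Agent.W5h73.VM

/-- Let `L` be a classical link. Let a movie of classical links without births lead from `L` to the
link `D` (for instance, `D = L`), and let `D` bound virtual surfaces: a movie of *virtual* links leads
from `D` to the empty link, births being allowed. Let `Z` be a set of double curves of these surfaces
which do not meet `D`, such that through each triple point there pass at least two or none of them,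
and let `T` be the list of the triple points of the second kind. Suppose that, counting the triple
points in `T` only, no curve of the preimage of the double curves crosses itself, and any two of these
curves cross at most once. Then the components of `L` bound disjoint ribbon discs in the 4-ball, that
is, discs given by a movie of classical links without births. The virtual surfaces may have
handles which can be cut along curves meeting only the double curves in `Z`. -/
theorem result (L : List (List Pass)) (hL : Classical L.zipIdx) (D : Code) (Z : ℕ → Prop)
    (T : List (ℕ × ℕ × ℕ)) (h₁ : Movie true false L.zipIdx D) (h₂ : VMovie Z D T)
    (hZ : ∀ p ∈ passes D, ¬Z (colour p.crossing))
    (h₃ : ∀ e ∈ T.flatMap crs, ¬e.IsDiag) (h₄ : (T.flatMap crs).Nodup) :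
    Movie true false L.zipIdx [] := by
  have hn : (L.zipIdx.map Prod.snd).Nodup := by
    rw [List.zipIdx_map_snd]
    exact List.nodup_range'
  exact h₁.trans (noBigons_virtual (classical_of_movie h₁ hL) h₂ hZ (nodup_movie h₁ hn) h₃ h₄)

end Pool.Agent.Results.MP_752436_gt.VirtualNoBigons
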