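import Pool.Agent.W5h73.TT.Three

/-!
Classical links bounding virtual surfaces (surfaces in thickened 3-manifolds) such that each component
of the double point set of the projection which meets the link contains at most three triple points. In
the projection of a surface, the triple points are the Reidemeister moves of type III in its movie.
The movies here go from the link into the surface, so that births of components are the local maxima
of the distance function, and ribbon discs are the discs given by movies without births. A movie of
virtual links is a movie of arbitrary signed Gauss codes. Every crossing belongs to a connected
component of the set of double points, named by its colour. The names of components with branch points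
are even; the names of the other ones are arbitrary.
-/

namespace Pool.Agent.Results.MP_752436_gt.VirtualThreeTriplePoints

open Pool.Agent.Y468.SR Pool.Agent.Y874.TP Pool.Agent.R800.TP Pool.Agent.W5h73.VM

/-- Let `L` be a classical link. Let a movie of classical links without births lead from `L` to the
link `D` (for instance, `D = L`), and let `D` bound virtual surfaces: a movie of *virtual* links leads
from `D` to the empty link, births being allowed. Let the crossings in this movie be coloured by the
components (or unions of components) of the double point set of the projection; this means that
the colours are kept by all moves and that the three crossings at each triple point have the same
colour (`h₃`). Let `Z` be a set of components which do not meet `D` (`hZ`); `T` is the list of the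
triples of colours at the triple points not in the components belonging to `Z`. If each component
not in `Z` contains at most three triple points (`h₄`), then the components of `L` bound disjoint ribbon
discs in the 4-ball, that is, discs given by a movie of classical links without births. The virtual
surfaces may have handles which can be cut along curves meeting only double curves in `Z`. -/
theorem result (L : List (List Pass)) (hL : Classical L.zipIdx) (D : Code) (Z : ℕ → Prop)
    (T : List (ℕ × ℕ × ℕ)) (h₁ : Movie true false L.zipIdx D) (h₂ : VMovie Z D T)
    (hZ : ∀ p ∈ passes D, ¬Z (colour p.crossing))
    (h₃ : ∀ t ∈ T, t.2.1 = t.1 ∧ t.2.2 = t.1) (h₄ : ∀ κ, (T.map Prod.fst).count κ ≤ 3) :
    Movie true false L.zipIdx [] := by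
  have hn : (L.zipIdx.map Prod.snd).Nodup := by
    rw [List.zipIdx_map_snd]
    exact List.nodup_range'
  exact h₁.trans (Pool.Agent.W5h73.TT3.three_virtual (classical_of_movie h₁ hL) h₂ hZ
    (nodup_movie h₁ hn) h₃ h₄)

end Pool.Agent.Results.MP_752436_gt.VirtualThreeTriplePoints
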