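import Pool.Agent.W7h56.WE.Will

/-!
# Slice discs of Willmore energy less than `4 π` are ribbon

For a slice disc in the closed unit ball of Euclidean four-space let `H` be its mean curvature
vector (half of the trace of the second fundamental form), so that `∫ |H|² dA` is its Willmore
energy: a round sphere has energy `4 π`, a minimal disc has energy `0`. Let the total convex
curvature be the integral of `det II_w / det I`, over the disc (area element) and over the vectors
`w` of length less than 1 in the normal planes for which the second fundamental form `II_w` in the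
direction `w` is positive definite.

If the Willmore energy is less than `4 π (m + 1)` or if the total convex curvature is less than
`(m + 1) vol(B⁴) = (m + 1) π² / 2`, then an injective immersion `Ψ` of the closed ball minus an
interior point `q` outside the disc into the closed ball, which is the identity on the unit sphere,
turns the disc into a slice disc with the same boundary on which the distance from the origin is a
Morse function with at most `m` local maxima. For `m = 0` this is the standard description of ribbon
discs. (Hass 1983: minimal discs are ribbon.)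
-/

set_option autoImplicit false

namespace Pool.Agent.Results.MP_752436_gt.WillmoreEnergy

open scoped ContDiff
open Pool.Agent.Y503.RB Pool.Agent.W7h56.WE
open MeasureTheory Set Metric

theorem result (φ : ℂ → E4) (h : SliceDisc φ) (m : ℕ)
    (hT : willmore φ < ENNReal.ofReal (4 * Real.pi * (m + 1)) ∨
      ∫⁻ z in ball (0 : ℂ) 1, cdens φ z < ENNReal.ofReal (Real.pi ^ 2 / 2 * (m + 1))) :
    ∃ (q : E4) (Ψ : E4 → E4), ‖q‖ < 1 ∧ (∀ z ∈ closedBall (0 : ℂ) 1, φ z ≠ q) ∧
      (∀ x ∈ closedBall (0 : E4) 1 \ {q}, ContDiffAt ℝ ∞ Ψ x) ∧
      InjOn Ψ (closedBall (0 : E4) 1 \ {q}) ∧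
      (∀ x ∈ closedBall (0 : E4) 1 \ {q}, Function.Injective (fderiv ℝ Ψ x)) ∧
      (∀ x ∈ ball (0 : E4) 1 \ {q}, ‖Ψ x‖ < 1) ∧
      (∀ x ∈ sphere (0 : E4) 1, Ψ x = x) ∧
      SliceDisc (fun w => Ψ (φ w)) ∧ MorseDisc (fun w => Ψ (φ w)) m := by
  rcases hT with hW | hK
  · exact disc h m (hyp_of_willmore h m hW)
  · exact disc h m hK

end Pool.Agent.Results.MP_752436_gt.WillmoreEnergy
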